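import Pool.Agent.Zk17.TC.Stm

/-!
# Uniform elimination (after `Pool.Agent.R356.elim`)
-/

set_option autoImplicit false

namespace Pool.Agent.Zk17.TC

open Polynomial Finset Pool.Agent.R356 Pool.Agent.TH456.TM

/-- **Elimination**, uniform in the relation. -/
theorem elim_unif (x : ℂ) (hx : MeasT x) (D E₁ E₂ g : ℕ) (T : ℝ) (hT1 : 1 ≤ T) :
    ∃ κ C : ℝ, 0 < κ ∧ 0 < C ∧ ∀ u v : ℂ, ‖u‖ ≤ T → ‖v‖ ≤ T → ∀ G : ℤ[X][X][X], ev3 x u v G = 0 →
      G.natDegree ≤ g → (∀ i, (G.coeff i).natDegree ≤ E₁) →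
      (∀ i j, ((G.coeff i).coeff j).natDegree ≤ E₂) → ∀ P Q : ℤ[X], P ≠ 0 → Q ≠ 0 →
      P.natDegree ≤ D → Q.natDegree ≤ D →
      (∀ α β : ℂ, aeval α P = 0 → aeval β Q = 0 → ∃ x₀ : ℂ, ev3 x₀ α β G ≠ 0) →
      ∀ H : ℝ, 1 ≤ H → (∀ i, len2 (G.coeff i) ≤ H) → (∀ i, ‖evR x u (G.coeff i)‖ ≤ H) →
      (∀ k, |((P.coeff k : ℤ) : ℝ)| ≤ H) → (∀ k, |((Q.coeff k : ℤ) : ℝ)| ≤ H) →
      C * H ^ (-κ) ≤ max ‖aeval u P‖ ‖aeval v Q‖ := by
  obtain ⟨s, hs⟩ : ∃ s, s = D + g := ⟨_, rfl⟩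
  obtain ⟨κ₀, hκ₀, hcore⟩ := core_res x hx (D + s * E₁ + 1) (s * E₂) (by omega)
  obtain ⟨C₀, hC₀, hcore⟩ := hcore T hT1
  obtain ⟨B, hB⟩ : ∃ B : ℝ, B = s.factorial := ⟨_, rfl⟩
  obtain ⟨S, hS⟩ : ∃ S, S = 2 * s := ⟨_, rfl⟩
  have hB1 : (1 : ℝ) ≤ B := by rw [hB]; exact_mod_cast Nat.factorial_pos _
  obtain ⟨K, hK⟩ : ∃ K : ℝ, K = (s + 1) * T ^ s * B := ⟨_, rfl⟩
  have hTs : 1 ≤ T ^ s := one_le_pow₀ hT1
  have hsR : (0 : ℝ) ≤ s := by positivity
  have hK1 : 1 ≤ K := by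
    rw [hK]
    have : 1 ≤ (s + 1 : ℝ) * T ^ s := by nlinarith
    nlinarith
  refine ⟨S * κ₀ + S + 1, min 1 (C₀ * B ^ (-κ₀) / K), by positivity, by positivity, ?_⟩
  intro u v hu hv G hG hg h1 h2 P Q hP hQ hPD hQD hbad H hH h3 h4 hPH hQH
  have hH0 : 0 < H := by linarith
  have hκpos : 0 < (S * κ₀ + S + 1 : ℝ) := by positivity
  have hsmall : H ^ (-(S * κ₀ + S + 1 : ℝ)) ≤ 1 :=
    Real.rpow_le_one_of_one_le_of_nonpos hH (by linarith)
  have hconst : ∀ (R : ℤ[X]) (t : ℂ), R ≠ 0 → R.natDegree = 0 → (1 : ℝ) ≤ ‖aeval t R‖ := by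
    intro R t hR hR0
    have h1 : R = C (R.coeff 0) := eq_C_of_natDegree_eq_zero hR0
    have h2 : R.coeff 0 ≠ 0 := fun h => hR (by rw [h1, h, C_0])
    rw [h1, aeval_C, eq_intCast, Complex.norm_intCast, ← Int.cast_abs]
    exact_mod_cast Int.one_le_abs h2
  have htriv : min 1 (C₀ * B ^ (-κ₀) / K) * H ^ (-(S * κ₀ + S + 1 : ℝ)) ≤ 1 := by
    have h5 : min 1 (C₀ * B ^ (-κ₀) / K) ≤ 1 := min_le_left _ _
    have h6 : 0 ≤ H ^ (-(S * κ₀ + S + 1 : ℝ)) := by positivity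
    nlinarith
  by_cases hP0 : P.natDegree = 0
  · exact htriv.trans ((hconst P u hP hP0).trans (le_max_left _ _))
  by_cases hQ0 : Q.natDegree = 0
  · exact htriv.trans ((hconst Q v hQ hQ0).trans (le_max_right _ _))
  obtain ⟨b1, b2, b3⟩ := NN_bounds Q G E₁ E₂ H H hH hH h1 h2 h3 hQH
  have b4 := NN_value x u v Q G hG H H T hH hH hT1 hv (by omega) h4 hQH
  obtain ⟨r, hr⟩ : ∃ r, r = Q.natDegree + G.natDegree := ⟨_, rfl⟩
  have hrs : r ≤ s := by omega
  have hcast : ((Q.natDegree : ℝ) + G.natDegree) = r := by rw [hr]; push_cast; ring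
  rw [hcast] at b4
  rw [← hr] at b1 b2 b3 b4
  have hAH : 1 ≤ H * H := by nlinarith
  have hpow : (H * H) ^ r ≤ H ^ S := by
    have e : H * H = H ^ 2 := by ring
    rw [e, ← pow_mul, hS]
    exact pow_le_pow_right₀ hH (by omega)
  have hfr : ((r.factorial : ℕ) : ℝ) ≤ B := by rw [hB]; exact_mod_cast Nat.factorial_le hrs
  have b5 : (r.factorial : ℝ) * (H * H) ^ r ≤ B * H ^ S := by gcongr
  have hHs : 1 ≤ H ^ S := one_le_pow₀ hH
  -- application of the one variable result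
  have hdeg : (P.map (C : ℤ →+* ℤ[X])).natDegree = P.natDegree :=
    natDegree_map_eq_of_injective C_injective _
  have hE₁' : r * E₁ ≤ s * E₁ := Nat.mul_le_mul_right _ hrs
  have hE₂' : r * E₂ ≤ s * E₂ := Nat.mul_le_mul_right _ hrs
  have key := hcore u hu (P.map C) (NN Q G) (by rw [hdeg]; omega) (by omega)
    (fun j => by rw [coeff_map, natDegree_C]; omega) (fun j => (b2 j).trans hE₂')
    (by rw [hdeg]; omega)
    (res_ne P hP (NN Q G) fun α hα => exists_generic α Q hQ G fun β hβ => hbad α β hα hβ)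
    (B * H ^ S) (by nlinarith)
    (fun j k => by
      rw [coeff_map, coeff_C]
      split_ifs
      · refine (hPH j).trans ?_
        have h7 : H ≤ H ^ S := le_self_pow₀ hH (by omega)
        nlinarith
      · simp only [Int.cast_zero, abs_zero]; positivity)
    (fun j k => (b3 j k).trans b5)
  rw [vl_map_C] at key
  -- conclusion
  obtain ⟨ε, hε⟩ : ∃ ε : ℝ, ε = max ‖aeval u P‖ ‖aeval v Q‖ := ⟨_, rfl⟩
  rw [← hε]
  have hε1 : ‖aeval u P‖ ≤ ε := by rw [hε]; exact le_max_left _ _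
  have hε2 : ‖aeval v Q‖ ≤ ε := by rw [hε]; exact le_max_right _ _
  have hε0 : 0 ≤ ε := (norm_nonneg _).trans hε1
  have b6 : ‖vl x u (NN Q G)‖ ≤ K * H ^ S * ε := by
    refine b4.trans ?_
    have hrR : (r : ℝ) ≤ s + 1 := by
      have : (r : ℝ) ≤ s := by exact_mod_cast hrs
      linarith
    have hTr : T ^ r ≤ T ^ s := pow_le_pow_right₀ hT1 hrs
    calc (r : ℝ) * (T ^ r * ‖aeval v Q‖) * ((r.factorial : ℝ) * (H * H) ^ r)
        ≤ (s + 1) * (T ^ s * ε) * (B * H ^ S) := by gcongr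
      _ = _ := by rw [hK]; ring
  have b7 : max ‖aeval u P‖ ‖vl x u (NN Q G)‖ ≤ K * H ^ S * ε := by
    refine max_le (hε1.trans ?_) b6
    have : 1 ≤ K * H ^ S := by nlinarith
    nlinarith
  have b8 : C₀ * (B * H ^ S) ^ (-κ₀) ≤ K * H ^ S * ε := key.trans b7
  have e1 : (B * H ^ S) ^ (-κ₀) = B ^ (-κ₀) * H ^ (-(S * κ₀ : ℝ)) := by
    rw [Real.mul_rpow (by linarith) (by positivity), ← Real.rpow_natCast H S,
      ← Real.rpow_mul hH0.le]
    congr 2
    ring
  have e2 : H ^ (-(S * κ₀ : ℝ)) = H ^ S * H ^ (-(S * κ₀ + S : ℝ)) := by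
    rw [← Real.rpow_natCast H S, ← Real.rpow_add hH0]
    congr 1
    ring
  have b9 : C₀ * B ^ (-κ₀) / K * H ^ (-(S * κ₀ + S : ℝ)) ≤ ε := by
    rw [e1, e2] at b8
    have h8 : 0 < K * H ^ S := by positivity
    have h9 : (K * H ^ S) * (C₀ * B ^ (-κ₀) / K * H ^ (-(S * κ₀ + S : ℝ))) ≤ (K * H ^ S) * ε := by
      calc (K * H ^ S) * (C₀ * B ^ (-κ₀) / K * H ^ (-(S * κ₀ + S : ℝ)))
          = C₀ * (B ^ (-κ₀) * (H ^ S * H ^ (-(S * κ₀ + S : ℝ)))) := by
            field_simp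
        _ ≤ _ := b8
    exact le_of_mul_le_mul_left h9 h8
  have e3 : H ^ (-(S * κ₀ + S + 1 : ℝ)) ≤ H ^ (-(S * κ₀ + S : ℝ)) :=
    Real.rpow_le_rpow_of_exponent_le hH (by linarith)
  calc min 1 (C₀ * B ^ (-κ₀) / K) * H ^ (-(S * κ₀ + S + 1 : ℝ))
      ≤ C₀ * B ^ (-κ₀) / K * H ^ (-(S * κ₀ + S : ℝ)) := by
        gcongr
        exact min_le_right _ _
    _ ≤ ε := b9

/-- the polynomial `k x - m u - n v` -/
noncomputable def Glin (k m n : ℤ) : ℤ[X][X][X] :=
  C (C (C k * X) + C (C m) * X) + C (C (C n)) * X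

lemma eR_int (x u : ℂ) (z : ℤ) : evR x u (C (C z)) = z :=
  eq_intCast ((evR x u).comp ((C : ℤ[X] →+* ℤ[X][X]).comp (C : ℤ →+* ℤ[X]))) z

lemma eR_x (x u : ℂ) : evR x u (C X) = x := by simp [evR, σx]

lemma eR_u (x u : ℂ) : evR x u X = u := by simp [evR]

lemma eR_lin (x u : ℂ) (k m : ℤ) :
    evR x u (C (C k * X) + C (C m) * X) = k * x + m * u := by
  have e : (C (C k * X) : ℤ[X][X]) = C (C k) * C X := by rw [← C_mul]
  rw [e, RingHom.map_add, RingHom.map_mul, RingHom.map_mul, eR_int, eR_int, eR_x, eR_u]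

lemma e3_C (x u v : ℂ) (P : ℤ[X][X]) : ev3 x u v (C P) = evR x u P := by
  rw [ev3, coe_eval₂RingHom, eval₂_C]

lemma e3_X (x u v : ℂ) : ev3 x u v X = v := by
  rw [ev3, coe_eval₂RingHom, eval₂_X]

lemma ev_Glin (x u v : ℂ) (k m n : ℤ) : ev3 x u v (Glin k m n) = k * x + m * u + n * v := by
  rw [Glin, RingHom.map_add, e3_C, eR_lin, RingHom.map_mul (ev3 x u v), e3_C, e3_X, eR_int]

lemma Glin_coeff (k m n : ℤ) (i : ℕ) : (Glin k m n).coeff i =
    if i = 0 then C (C k * X) + C (C m) * X else if i = 1 then C (C n) else 0 := by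
  rw [Glin, coeff_add, coeff_C, coeff_C_mul_X]
  by_cases h0 : i = 0
  · subst h0; simp
  · by_cases h1 : i = 1
    · subst h1; simp
    · simp [h0, h1]

lemma len2_X_inner : len2 (C (X : ℤ[X])) ≤ 1 := by
  show len (len fun z : ℤ => |(z : ℝ)|) (C (X : ℤ[X])) ≤ 1
  rw [len_C isLen_int.poly, len_eq isLen_int (X : ℤ[X]) 2 (by rw [natDegree_X]; norm_num)]
  simp [Finset.sum_range_succ, coeff_X]

lemma len2_X : len2 (X : ℤ[X][X]) ≤ 1 := by
  show len (len fun z : ℤ => |(z : ℝ)|) (X : ℤ[X][X]) ≤ 1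
  rw [len_eq isLen_int.poly (X : ℤ[X][X]) 2 (by rw [natDegree_X]; norm_num)]
  have h1 := isLen_int.poly.one
  have h0 := isLen_int.poly.zero
  simp only [Finset.sum_range_succ, Finset.sum_range_zero, coeff_X, zero_add]
  simp only [one_ne_zero, if_false, if_true]
  linarith

theorem t_U1 : S_U1 := by
  intro x hx D T₀
  obtain ⟨T, hT⟩ : ∃ T : ℝ, T = max 1 T₀ := ⟨_, rfl⟩
  have hT1 : 1 ≤ T := by rw [hT]; exact le_max_left _ _
  have hT0 : T₀ ≤ T := by rw [hT]; exact le_max_right _ _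
  obtain ⟨κ, C₀, hκ, hC₀, hmain⟩ := elim_unif x hx D 1 1 1 T hT1
  obtain ⟨L, hL⟩ : ∃ L : ℝ, L = 2 + ‖x‖ + T := ⟨_, rfl⟩
  have nx := norm_nonneg x
  have hL1 : 1 ≤ L := by rw [hL]; linarith
  have hL0 : 0 < L := by linarith
  refine ⟨κ, C₀ * L ^ (-κ), hκ, by positivity, ?_⟩
  intro u v hu hv k m n hk hrel P Q hP hQ hPD hQD H hH hkH hmH hnH hPH hQH
  have hH0 : 0 < H := by linarith
  have hLH : H ≤ L * H := by nlinarith
  have h := hmain u v (hu.trans hT0) (hv.trans hT0) (Glin k (-m) (-n)) (by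
    rw [ev_Glin, hrel]
    push_cast
    ring) (by
    rw [Glin]
    refine (natDegree_add_le _ _).trans (max_le ?_ ?_)
    · rw [natDegree_C]; omega
    · exact (natDegree_C_mul_le _ _).trans natDegree_X_le) (fun i => by
    rw [Glin_coeff]
    split_ifs
    · refine (natDegree_add_le _ _).trans (max_le ?_ ?_)
      · rw [natDegree_C]; omega
      · exact (natDegree_C_mul_le _ _).trans natDegree_X_le
    · rw [natDegree_C]; omega
    · rw [natDegree_zero]; omega) (fun i j => by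
    rw [Glin_coeff]
    split_ifs
    · rw [coeff_add, coeff_C, coeff_C_mul_X]
      refine (natDegree_add_le _ _).trans (max_le ?_ ?_)
      · split_ifs
        · exact (natDegree_C_mul_le _ _).trans natDegree_X_le
        · rw [natDegree_zero]; omega
      · split_ifs
        · rw [natDegree_C]; omega
        · rw [natDegree_zero]; omega
    · rw [coeff_C]
      split_ifs
      · rw [natDegree_C]; omega
      · rw [natDegree_zero]; omega
    · rw [coeff_zero, natDegree_zero]; omega) P Q hP hQ hPD hQD (fun α β _ _ => by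
    by_contra hall
    push Not at hall
    have h0 := hall 0
    have h1 := hall 1
    rw [ev_Glin] at h0 h1
    apply hk
    have h2 : (k : ℂ) = 0 := by linear_combination h1 - h0
    exact_mod_cast h2) (L * H) (by nlinarith) (fun i => by
    rw [Glin_coeff]
    have hzero : (0 : ℝ) ≤ L * H := by positivity
    split_ifs
    · refine (isLen2.add _ _).trans ?_
      have a1 : len2 (C (C k * X : ℤ[X])) ≤ H := by
        have : (C (C k * X) : ℤ[X][X]) = C (C k) * C X := by rw [← C_mul]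
        rw [this]
        refine (isLen2.mul _ _).trans ?_
        rw [len2_CC]
        have := len2_X_inner
        have h5 := abs_nonneg (k : ℝ)
        nlinarith
      have a2 : len2 (C (C (-m)) * X : ℤ[X][X]) ≤ H := by
        refine (isLen2.mul _ _).trans ?_
        rw [len2_CC]
        have := len2_X
        have h5 := abs_nonneg (m : ℝ)
        push_cast
        rw [abs_neg]
        nlinarith
      have : 2 * H ≤ L * H := by nlinarith
      linarith
    · show len2 _ ≤ _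
      rw [len2_CC]
      push_cast
      rw [abs_neg]
      linarith
    · show len2 0 ≤ _
      rw [isLen2.zero]; exact hzero) (fun i => by
    rw [Glin_coeff]
    split_ifs
    · have : evR x u (C (C k * X) + C (C (-m)) * X) = k * x - m * u := by
        rw [eR_lin]
        push_cast
        ring
      rw [this]
      refine (norm_sub_le _ _).trans ?_
      rw [norm_mul, norm_mul, Complex.norm_intCast, Complex.norm_intCast]
      have a1 : |(k : ℝ)| * ‖x‖ ≤ H * ‖x‖ := mul_le_mul_of_nonneg_right hkH nx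
      have a2 : |(m : ℝ)| * ‖u‖ ≤ H * T := mul_le_mul hmH (hu.trans hT0) (norm_nonneg _) hH0.le
      rw [hL]
      nlinarith
    · rw [eR_int, Complex.norm_intCast]
      push_cast
      rw [abs_neg]
      linarith
    · rw [map_zero, norm_zero]
      positivity) (fun j => (hPH j).trans hLH) (fun j => (hQH j).trans hLH)
  refine le_trans (le_of_eq ?_) h
  rw [Real.mul_rpow hL0.le hH0.le]
  ring

end Pool.Agent.Zk17.TC
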