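import Pool.Agent.Zk17.TC.Fam
import Pool.Agent.Zk17.TC.U1

/-!
# All linear forms `a t + b s` at once
-/

set_option autoImplicit false

namespace Pool.Agent.Zk17.TC

open Polynomial Finset Pool.Agent.R356 Pool.Agent.TH456.TM Pool.Agent.N743

/-- the polynomial `P(N X)` -/
noncomputable def scl (N : ℤ) (P : ℤ[X]) : ℤ[X] := P.comp (C N * X)

lemma scl_coeff (N : ℤ) (P : ℤ[X]) (j : ℕ) : (scl N P).coeff j = P.coeff j * N ^ j := by
  rw [scl, comp_C_mul_X_coeff]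

lemma scl_deg (N : ℤ) (P : ℤ[X]) : (scl N P).natDegree ≤ P.natDegree := by
  rw [natDegree_le_iff_coeff_eq_zero]
  intro j hj
  rw [scl_coeff, coeff_eq_zero_of_natDegree_lt hj, zero_mul]

lemma scl_ne (N : ℤ) (hN : N ≠ 0) (P : ℤ[X]) (hP : P ≠ 0) : scl N P ≠ 0 := by
  intro h
  have h1 := congrArg (fun Q : ℤ[X] => Q.coeff P.natDegree) h
  beta_reduce at h1
  rw [scl_coeff, coeff_zero] at h1
  rcases mul_eq_zero.1 h1 with h2 | h2
  · exact hP (leadingCoeff_eq_zero.1 h2)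
  · exact pow_ne_zero _ hN h2

lemma scl_eval (N : ℤ) (P : ℤ[X]) (u : ℂ) : aeval u (scl N P) = aeval ((N : ℂ) * u) P := by
  rw [scl, aeval_comp]
  simp

lemma scl_bound (N : ℤ) (P : ℤ[X]) (D : ℕ) (hD : P.natDegree ≤ D) (B H : ℝ) (hB : 1 ≤ B) (hN : |(N : ℝ)| ≤ B)
    (hH : ∀ j, |((P.coeff j : ℤ) : ℝ)| ≤ H) (j : ℕ) : |(((scl N P).coeff j : ℤ) : ℝ)| ≤ H * B ^ D := by
  have hH0 : 0 ≤ H := (abs_nonneg _).trans (hH 0)
  rw [scl_coeff]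
  by_cases hj : j ≤ D
  · push_cast
    rw [abs_mul, abs_pow]
    have h1 : |(N : ℝ)| ^ j ≤ B ^ D :=
      (pow_le_pow_left₀ (abs_nonneg _) hN j).trans (pow_le_pow_right₀ hB hj)
    exact mul_le_mul (hH j) h1 (by positivity) hH0
  · rw [coeff_eq_zero_of_natDegree_lt (by omega), zero_mul]
    simp
    positivity

/-- the value of a linear form -/
def form (t s : ℝ) (p : ℤ × ℤ) : ℝ := p.1 * t + p.2 * s

/-- the size of a linear form -/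
def sz (p : ℤ × ℤ) : ℤ := max |p.1| |p.2|

lemma form_div (t s : ℝ) (p : ℤ × ℤ) (hp : sz p ≠ 0) :
    ‖((form t s p / sz p : ℝ) : ℂ)‖ ≤ |t| + |s| := by
  rw [Complex.norm_real, Real.norm_eq_abs, abs_div]
  have h0 : 0 ≤ sz p := (abs_nonneg p.1).trans (le_max_left _ _)
  have h1 : (0 : ℝ) < sz p := by exact_mod_cast lt_of_le_of_ne h0 (Ne.symm hp)
  rw [abs_of_pos h1, div_le_iff₀ h1]
  have h2 : |((p.1 : ℤ) : ℝ)| ≤ sz p := by
    rw [← Int.cast_abs]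
    exact_mod_cast le_max_left _ _
  have h3 : |((p.2 : ℤ) : ℝ)| ≤ sz p := by
    rw [← Int.cast_abs]
    exact_mod_cast le_max_right _ _
  rw [form]
  refine (abs_add_le _ _).trans ?_
  rw [abs_mul, abs_mul]
  have n1 := abs_nonneg t
  have n2 := abs_nonneg s
  nlinarith

lemma eval_div (t s : ℝ) (p : ℤ × ℤ) (hp : sz p ≠ 0) (P : ℤ[X]) :
    ‖aeval ((form t s p / sz p : ℝ) : ℂ) (scl (sz p) P)‖ = |aeval (form t s p) P| := by
  rw [scl_eval, abs_aeval]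
  congr 2
  have h1 : ((sz p : ℤ) : ℂ) ≠ 0 := by exact_mod_cast hp
  push_cast
  field_simp

/-- two different linear forms -/
theorem two_forms (t s : ℝ) (hs : MeasT (s : ℂ)) (D : ℕ) : ∃ κ C : ℝ, 0 < κ ∧ 0 < C ∧
    ∀ p q : ℤ × ℤ, p.1 * q.2 - p.2 * q.1 ≠ 0 → ∀ P Q : ℤ[X], P ≠ 0 → Q ≠ 0 → P.natDegree ≤ D →
      Q.natDegree ≤ D → ∀ H : ℝ, 1 ≤ H → ((sz p : ℤ) : ℝ) ≤ H → ((sz q : ℤ) : ℝ) ≤ H →
        (∀ j, |((P.coeff j : ℤ) : ℝ)| ≤ H) → (∀ j, |((Q.coeff j : ℤ) : ℝ)| ≤ H) →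
          C * H ^ (-κ) ≤ max |aeval (form t s p) P| |aeval (form t s q) Q| := by
  obtain ⟨κ, C, hκ, hC, h⟩ := t_U1 (s : ℂ) hs D (|t| + |s|)
  refine ⟨(D + 2) * κ, C * 2 ^ (-κ), by positivity, by positivity, ?_⟩
  intro p q hpq P Q hP hQ hPD hQD H hH hpH hqH hPH hQH
  have hH0 : 0 < H := by linarith
  have hp0 : sz p ≠ 0 := by
    intro h0
    have h1 : |p.1| ≤ 0 := by rw [← h0]; exact le_max_left _ _
    have h2 : |p.2| ≤ 0 := by rw [← h0]; exact le_max_right _ _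
    rw [abs_nonpos_iff] at h1 h2
    exact hpq (by rw [h1, h2]; ring)
  have hq0 : sz q ≠ 0 := by
    intro h0
    have h1 : |q.1| ≤ 0 := by rw [← h0]; exact le_max_left _ _
    have h2 : |q.2| ≤ 0 := by rw [← h0]; exact le_max_right _ _
    rw [abs_nonpos_iff] at h1 h2
    exact hpq (by rw [h1, h2]; ring)
  have hp1 : |((p.1 : ℤ) : ℝ)| ≤ H := by
    refine le_trans ?_ hpH
    rw [← Int.cast_abs]
    exact_mod_cast le_max_left _ _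
  have hp2 : |((p.2 : ℤ) : ℝ)| ≤ H := by
    refine le_trans ?_ hpH
    rw [← Int.cast_abs]
    exact_mod_cast le_max_right _ _
  have hq1 : |((q.1 : ℤ) : ℝ)| ≤ H := by
    refine le_trans ?_ hqH
    rw [← Int.cast_abs]
    exact_mod_cast le_max_left _ _
  have hq2 : |((q.2 : ℤ) : ℝ)| ≤ H := by
    refine le_trans ?_ hqH
    rw [← Int.cast_abs]
    exact_mod_cast le_max_right _ _
  have hpn : 0 ≤ sz p := (abs_nonneg p.1).trans (le_max_left _ _)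
  have hqn : 0 ≤ sz q := (abs_nonneg q.1).trans (le_max_left _ _)
  have hpa : |((sz p : ℤ) : ℝ)| ≤ H := by
    rw [abs_of_nonneg (by exact_mod_cast hpn)]; exact hpH
  have hqa : |((sz q : ℤ) : ℝ)| ≤ H := by
    rw [abs_of_nonneg (by exact_mod_cast hqn)]; exact hqH
  have hH2 : H ^ 2 ≤ H ^ (D + 2) := pow_le_pow_right₀ hH (by omega)
  have hHD : H * H ^ D ≤ H ^ (D + 2) := by
    rw [← pow_succ']
    exact pow_le_pow_right₀ hH (by omega)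
  have hHp : 0 < H ^ (D + 2) := by positivity
  have key := h ((form t s p / sz p : ℝ) : ℂ) ((form t s q / sz q : ℝ) : ℂ) (form_div t s p hp0)
    (form_div t s q hq0) (p.1 * q.2 - p.2 * q.1) (-(q.1 * sz p)) (p.1 * sz q) hpq (by
      have h1 : ((sz p : ℤ) : ℂ) ≠ 0 := by exact_mod_cast hp0
      have h2 : ((sz q : ℤ) : ℂ) ≠ 0 := by exact_mod_cast hq0
      simp only [form]
      push_cast
      field_simp
      ring) (scl (sz p) P) (scl (sz q) Q) (scl_ne _ hp0 P hP) (scl_ne _ hq0 Q hQ)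
    ((scl_deg _ _).trans hPD) ((scl_deg _ _).trans hQD) (2 * H ^ (D + 2))
    (by nlinarith [one_le_pow₀ hH (n := D + 2)]) (by
      push_cast
      have h1 : |(p.1 : ℝ) * q.2 - p.2 * q.1| ≤ |(p.1 : ℝ)| * |(q.2 : ℝ)| + |(p.2 : ℝ)| * |(q.1 : ℝ)| := by
        rw [← abs_mul, ← abs_mul]
        exact abs_sub _ _
      have h2 : |(p.1 : ℝ)| * |(q.2 : ℝ)| ≤ H * H := mul_le_mul hp1 hq2 (abs_nonneg _) hH0.le
      have h3 : |(p.2 : ℝ)| * |(q.1 : ℝ)| ≤ H * H := mul_le_mul hp2 hq1 (abs_nonneg _) hH0.le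
      nlinarith) (by
      push_cast
      rw [abs_neg, abs_mul]
      have h2 : |(q.1 : ℝ)| * |((sz p : ℤ) : ℝ)| ≤ H * H := mul_le_mul hq1 hpa (abs_nonneg _) hH0.le
      nlinarith) (by
      push_cast
      rw [abs_mul]
      have h2 : |(p.1 : ℝ)| * |((sz q : ℤ) : ℝ)| ≤ H * H := mul_le_mul hp1 hqa (abs_nonneg _) hH0.le
      nlinarith)
    (fun j => (scl_bound _ P D hPD H H hH hpa hPH j).trans (by linarith))
    (fun j => (scl_bound _ Q D hQD H H hH hqa hQH j).trans (by linarith))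
  rw [eval_div t s p hp0, eval_div t s q hq0] at key
  refine le_trans (le_of_eq ?_) key
  rw [Real.mul_rpow (by norm_num) (by positivity), ← Real.rpow_natCast H (D + 2), ← Real.rpow_mul hH0.le]
  push_cast
  rw [mul_assoc]
  congr 3
  ring

/-- the same linear form -/
theorem one_form (t s : ℝ) (hs : MeasT (s : ℂ)) (D : ℕ) : ∃ κ C : ℝ, 0 < κ ∧ 0 < C ∧
    ∀ p : ℤ × ℤ, sz p ≠ 0 → ∀ P ∈ I1 D, ∀ Q ∈ I1 D, P ≠ Q → ∀ H : ℝ, 1 ≤ H → ((sz p : ℤ) : ℝ) ≤ H →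
        (∀ j, |((P.coeff j : ℤ) : ℝ)| ≤ H) → (∀ j, |((Q.coeff j : ℤ) : ℝ)| ≤ H) →
          C * H ^ (-κ) ≤ max |aeval (form t s p) P| |aeval (form t s p) Q| := by
  obtain ⟨κ, hκ, h⟩ := pairG (s : ℂ) hs (D + 1) 0 (by omega)
  obtain ⟨C₁, hC₁, h⟩ := h (|t| + |s|)
  refine ⟨(D + 1) * κ, C₁, by positivity, hC₁, ?_⟩
  intro p hp0 P hP Q hQ hne H hH hpH hPH hQH
  have hH0 : 0 < H := by linarith
  have hpn : 0 ≤ sz p := (abs_nonneg p.1).trans (le_max_left _ _)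
  have hpa : |((sz p : ℤ) : ℝ)| ≤ H := by
    rw [abs_of_nonneg (by exact_mod_cast hpn)]; exact hpH
  have hHD : H * H ^ D = H ^ (D + 1) := by rw [← pow_succ']
  have hHp : 1 ≤ H ^ (D + 1) := one_le_pow₀ hH
  have bP := fun j => scl_bound (sz p) P D hP.2.1 H H hH hpa hPH j
  have bQ := fun j => scl_bound (sz p) Q D hQ.2.1 H H hH hpa hQH j
  rw [hHD] at bP bQ
  have key := h ((form t s p / sz p : ℝ) : ℂ) (form_div t s p hp0) (scl (sz p) P) ((scl (sz p) Q).map C)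
    (scl_ne _ hp0 P hP.1.ne_zero) (by have := scl_deg (sz p) P; have := hP.2.1; omega)
    (natDegree_map_le.trans (by have := scl_deg (sz p) Q; have := hQ.2.1; omega))
    (fun j => by rw [coeff_map, natDegree_C])
    (fun α hα => ⟨0, by
      rw [vl_map_C, scl_eval]
      rw [scl_eval] at hα
      exact no_common_root D P Q hP hQ hne _ hα⟩) (H ^ (D + 1)) hHp bP
    (fun j k => by
      rw [coeff_map, coeff_C]
      split_ifs
      · exact bQ j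
      · simp only [Int.cast_zero, abs_zero]; positivity)
  rw [vl_map_C, eval_div t s p hp0, eval_div t s p hp0] at key
  refine le_trans (le_of_eq ?_) key
  rw [← Real.rpow_natCast H (D + 1), ← Real.rpow_mul hH0.le]
  push_cast
  congr 2
  ring

/-- the directions: coprime pairs of integers, normalized -/
def IsDir (p : ℤ × ℤ) : Prop := IsCoprime p.1 p.2 ∧ (0 < p.1 ∨ (p.1 = 0 ∧ p.2 = 1))

lemma sz_pos {p : ℤ × ℤ} (hp : IsDir p) : 1 ≤ sz p := by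
  rcases hp.2 with h | ⟨h, h'⟩
  · exact le_trans (le_trans (by omega) (le_abs_self p.1)) (le_max_left _ _)
  · refine le_trans ?_ (le_max_right _ _)
    rw [h']
    simp

/-- **The scale dichotomy for all linear forms.** -/
theorem dichotomy_dir (t s : ℝ) (hs : MeasT (s : ℂ)) (d : ℕ) (M : ℝ) (hM : 1 < M) :
    ∃ θ₀ : ℝ, 0 < θ₀ ∧ ∀ θ : ℝ, 0 < θ → θ ≤ θ₀ →
      Dichotomy (fun p : {p : ℤ × ℤ // IsDir p} => AlgDeg d (form t s p.1))
        (fun X p => ((sz p.1 : ℤ) : ℝ) ≤ X ^ θ ∧ AlgNear d θ X (form t s p.1)) M := by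
  obtain ⟨κ₁, C₁, hκ₁, hC₁, h₁⟩ := one_form t s hs d
  obtain ⟨κ₂, C₂, hκ₂, hC₂, h₂⟩ := two_forms t s hs d
  obtain ⟨κ, hκe⟩ : ∃ κ : ℝ, κ = max κ₁ κ₂ := ⟨_, rfl⟩
  have hk1 : κ₁ ≤ κ := by rw [hκe]; exact le_max_left _ _
  have hk2 : κ₂ ≤ κ := by rw [hκe]; exact le_max_right _ _
  have hκ : 0 < κ := by linarith
  obtain ⟨C₀, hC₀e⟩ : ∃ C₀ : ℝ, C₀ = min C₁ C₂ := ⟨_, rfl⟩
  have hc1 : C₀ ≤ C₁ := by rw [hC₀e]; exact min_le_left _ _
  have hc2 : C₀ ≤ C₂ := by rw [hC₀e]; exact min_le_right _ _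
  have hC₀ : 0 < C₀ := by rw [hC₀e]; exact lt_min hC₁ hC₂
  have hmono : ∀ (κ' C' H : ℝ), 1 ≤ H → C₀ ≤ C' → κ' ≤ κ → C₀ * H ^ (-κ) ≤ C' * H ^ (-κ') := by
    intro κ' C' H hH hC' hκ'
    have h3 : H ^ (-κ) ≤ H ^ (-κ') := Real.rpow_le_rpow_of_exponent_le hH (by linarith)
    have h4 : 0 < H ^ (-κ) := Real.rpow_pos_of_pos (by linarith) _
    have h5 : 0 ≤ C' := hC₀.le.trans hC'
    calc C₀ * H ^ (-κ) ≤ C' * H ^ (-κ) := mul_le_mul_of_nonneg_right hC' h4.le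
      _ ≤ _ := mul_le_mul_of_nonneg_left h3 h5
  have hd0 : (0 : ℝ) < (d : ℝ) + 1 := by positivity
  have hM0 : 0 < M + 1 := by linarith
  refine ⟨1 / ((d : ℝ) + 1) / ((M + 1) * κ) / 2, by positivity, fun θ hθ hθ₀ => ?_⟩
  refine engine (α := {p : ℤ × ℤ // IsDir p} × {P : ℤ[X] // P ∈ I1 d}) (fun a => a.1)
    (fun a => max ((sz a.1.1 : ℤ) : ℝ) (ht a.2.1 : ℝ))
    (fun a => |aeval (form t s a.1.1) a.2.1|) (fun a => (ht_pos _ a.2.2.1.ne_zero).trans (le_max_right _ _))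
    (fun a => abs_nonneg _)
    κ C₀ hκ hC₀ ?_ _ _ (2 ^ d * (d + 1)) θ (1 / ((d : ℝ) + 1)) M ?_ hθ (by positivity) ?_ ?_ ?_ ?_ hM
  · rintro ⟨⟨p, hp⟩, P, hP⟩ ⟨⟨q, hq⟩, Q, hQ⟩ hne
    have h1 := ht_pos P hP.1.ne_zero
    have h2 := ht_pos Q hQ.1.ne_zero
    have s1 : (1 : ℝ) ≤ max ((sz p : ℤ) : ℝ) (ht P : ℝ) := h1.trans (le_max_right _ _)
    have s2 : (1 : ℝ) ≤ max ((sz q : ℤ) : ℝ) (ht Q : ℝ) := h2.trans (le_max_right _ _)
    have hH : (1 : ℝ) ≤ max ((sz p : ℤ) : ℝ) (ht P : ℝ) * max ((sz q : ℤ) : ℝ) (ht Q : ℝ) := by nlinarith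
    have l1 : max ((sz p : ℤ) : ℝ) (ht P : ℝ) ≤
        max ((sz p : ℤ) : ℝ) (ht P : ℝ) * max ((sz q : ℤ) : ℝ) (ht Q : ℝ) := by nlinarith
    have l2 : max ((sz q : ℤ) : ℝ) (ht Q : ℝ) ≤
        max ((sz p : ℤ) : ℝ) (ht P : ℝ) * max ((sz q : ℤ) : ℝ) (ht Q : ℝ) := by nlinarith
    have a1 : ((sz p : ℤ) : ℝ) ≤ max ((sz p : ℤ) : ℝ) (ht P : ℝ) * max ((sz q : ℤ) : ℝ) (ht Q : ℝ) :=
      (le_max_left _ _).trans l1
    have a2 : ((sz q : ℤ) : ℝ) ≤ max ((sz p : ℤ) : ℝ) (ht P : ℝ) * max ((sz q : ℤ) : ℝ) (ht Q : ℝ) :=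
      (le_max_left _ _).trans l2
    have a3 : ∀ j, |((P.coeff j : ℤ) : ℝ)| ≤
        max ((sz p : ℤ) : ℝ) (ht P : ℝ) * max ((sz q : ℤ) : ℝ) (ht Q : ℝ) := fun j =>
      ((le_ht P j).trans (le_max_right _ _)).trans l1
    have a4 : ∀ j, |((Q.coeff j : ℤ) : ℝ)| ≤
        max ((sz p : ℤ) : ℝ) (ht P : ℝ) * max ((sz q : ℤ) : ℝ) (ht Q : ℝ) := fun j =>
      ((le_ht Q j).trans (le_max_right _ _)).trans l2
    by_cases hpq : p.1 * q.2 - p.2 * q.1 = 0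
    · have e := norm_eq hp.1 hq.1 hp.2 hq.2 hpq
      have e' : p = q := Prod.ext e.1 e.2
      subst e'
      have hPQ : P ≠ Q := by
        rintro rfl
        exact hne rfl
      have := sz_pos hp
      exact (hmono _ _ _ hH hc1 hk1).trans (h₁ p (by omega) P hP Q hQ hPQ _ hH a1 a3 a4)
    · exact (hmono _ _ _ hH hc2 hk2).trans (h₂ p q hpq P Q hP.1.ne_zero hQ.1.ne_zero hP.2.1 hQ.2.1 _ hH a1 a2 a3 a4)
  · have h1 : (1 : ℝ) ≤ 2 ^ d := one_le_pow₀ (by norm_num)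
    have h2 : (0 : ℝ) ≤ d := by positivity
    nlinarith
  · rintro X hX i ⟨hsz, hi⟩
    obtain ⟨q, hq, h1, h2⟩ := near_irr d θ X (form t s i.1) hX hi
    refine ⟨(i, ⟨q, hq⟩), rfl, max_le (hsz.trans ?_) h1, h2⟩
    have h3 : (1 : ℝ) ≤ 2 ^ d := one_le_pow₀ (by norm_num)
    have h4 : (0 : ℝ) ≤ d := by positivity
    have h5 : 0 ≤ X ^ θ := Real.rpow_nonneg (by linarith) _
    have h6 : (1 : ℝ) ≤ 2 ^ d * (d + 1) := by nlinarith
    nlinarith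
  · intro i
    rw [algDeg_iff]
    constructor
    · rintro ⟨q, hq, h0⟩
      exact ⟨(i, ⟨q, hq⟩), rfl, h0⟩
    · rintro ⟨⟨j, q, hq⟩, rfl, h0⟩
      exact ⟨q, hq, h0⟩
  · intro i hi
    obtain ⟨K₁, h3⟩ := near_of_algDeg d θ (form t s i.1) hθ hi
    obtain ⟨K₂, -, h4⟩ := large_scale θ ((sz i.1 : ℤ) : ℝ) hθ
    exact ⟨max K₁ K₂, fun X hX => ⟨(h4 X ((le_max_right _ _).trans hX)).le, h3 X ((le_max_left _ _).trans hX)⟩⟩
  · have h1 : (M + 1) * (θ * κ) ≤ (M + 1) * ((1 / ((d : ℝ) + 1) / ((M + 1) * κ) / 2) * κ) := by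
      gcongr
    have h2 : (M + 1) * ((1 / ((d : ℝ) + 1) / ((M + 1) * κ) / 2) * κ) = 1 / ((d : ℝ) + 1) / 2 := by
      field_simp
    have h3 : 0 < 1 / ((d : ℝ) + 1) := by positivity
    linarith

end Pool.Agent.Zk17.TC
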