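import Pool.Agent.R356.Aff
import Pool.Agent.R343.LD4

/-!
# Lempel-Ziv complexity of expansions of two numbers with a joint measure
-/

set_option autoImplicit false

namespace Pool.Agent.Zk17.TC

open Polynomial Pool.Agent.R356 Pool.Agent.R343.LD Pool.Agent.R343.LP

lemma coeff_lin (q p : ℤ) (k : ℕ) (H : ℝ) (hq : |(q : ℝ)| ≤ H) (hp : |(p : ℝ)| ≤ H) :
    |(((C q * X - C p : ℤ[X]).coeff k : ℤ) : ℝ)| ≤ H := by
  have hH : 0 ≤ H := (abs_nonneg _).trans hq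
  rw [coeff_sub, coeff_C_mul_X, coeff_C]
  by_cases h0 : k = 0
  · subst h0
    simp
    simpa using hp
  · by_cases h1 : k = 1
    · subst h1
      simp
      simpa using hq
    · rw [if_neg h1, if_neg h0]
      simpa using hH

theorem msP_of_joint (u v : ℝ) (h : JointR u v) : ∃ μ c : ℝ, 1 ≤ μ ∧ 0 < c ∧
    MsP {0, 1} (fun j => if j = 0 then u else v) μ c := by
  obtain ⟨κ, C0, hκ, hC0, hj⟩ := h 1
  obtain ⟨A, hA⟩ : ∃ A : ℝ, A = |u| + |v| + 2 := ⟨_, rfl⟩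
  have nu := abs_nonneg u
  have nv := abs_nonneg v
  have hA1 : 1 ≤ A := by rw [hA]; linarith
  have hA0 : 0 < A := by linarith
  refine ⟨κ + 1, min 1 (C0 * A ^ (-κ)), by linarith, by positivity, ?_⟩
  intro q hq p
  have hq0 : 1 ≤ q 0 := hq 0 (by simp)
  have hq1 : 1 ≤ q 1 := hq 1 (by simp)
  have hprod : ((∏ j ∈ ({0, 1} : Finset ℕ), q j : ℕ) : ℝ) = (q 0 : ℝ) * q 1 := by
    rw [Finset.prod_pair (by norm_num)]
    push_cast
    rfl
  rw [hprod]
  have hr0 : (1 : ℝ) ≤ q 0 := by exact_mod_cast hq0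
  have hr1 : (1 : ℝ) ≤ q 1 := by exact_mod_cast hq1
  obtain ⟨Q, hQ⟩ : ∃ Q : ℝ, Q = (q 0 : ℝ) * q 1 := ⟨_, rfl⟩
  rw [← hQ]
  have hQ0 : (q 0 : ℝ) ≤ Q := by rw [hQ]; nlinarith
  have hQ1 : (q 1 : ℝ) ≤ Q := by rw [hQ]; nlinarith
  have hQ2 : 1 ≤ Q := by linarith
  have hQp : 0 < Q := by linarith
  have hpw : 1 ≤ Q ^ (κ + 1) := Real.one_le_rpow hQ2 (by linarith)
  by_cases hu : 1 < |u - (p 0 : ℝ) / q 0|
  · refine ⟨0, by simp, ?_⟩
    simp only [if_true]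
    refine (min_le_left _ _).trans ?_
    nlinarith
  by_cases hv : 1 < |v - (p 1 : ℝ) / q 1|
  · refine ⟨1, by simp, ?_⟩
    simp only [one_ne_zero, if_false]
    refine (min_le_left _ _).trans ?_
    nlinarith
  push Not at hu hv
  have e0 : |(q 0 : ℝ) * u - p 0| = q 0 * |u - (p 0 : ℝ) / q 0| := by
    rw [← abs_of_pos (by linarith : (0 : ℝ) < q 0), ← abs_mul, abs_of_pos (by linarith : (0 : ℝ) < q 0)]
    congr 1
    field_simp
  have e1 : |(q 1 : ℝ) * v - p 1| = q 1 * |v - (p 1 : ℝ) / q 1| := by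
    rw [← abs_of_pos (by linarith : (0 : ℝ) < q 1), ← abs_mul, abs_of_pos (by linarith : (0 : ℝ) < q 1)]
    congr 1
    field_simp
  have b0 : |(p 0 : ℝ)| ≤ A * Q := by
    have h1 : |(p 0 : ℝ)| ≤ |(q 0 : ℝ) * u - p 0| + |(q 0 : ℝ) * u| := by
      have : (p 0 : ℝ) = (q 0 : ℝ) * u - ((q 0 : ℝ) * u - p 0) := by ring
      calc |(p 0 : ℝ)| = |(q 0 : ℝ) * u - ((q 0 : ℝ) * u - p 0)| := by rw [← this]
        _ ≤ |(q 0 : ℝ) * u| + |(q 0 : ℝ) * u - p 0| := abs_sub _ _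
        _ = _ := add_comm _ _
    rw [e0, abs_mul, abs_of_pos (by linarith : (0 : ℝ) < q 0)] at h1
    have h2 : (q 0 : ℝ) * |u - (p 0 : ℝ) / q 0| ≤ q 0 * 1 := mul_le_mul_of_nonneg_left hu (by linarith)
    have h3 : (q 0 : ℝ) * |u| + q 0 ≤ q 0 * A := by
      rw [hA]
      nlinarith
    have h4 : (q 0 : ℝ) * A ≤ Q * A := mul_le_mul_of_nonneg_right hQ0 hA0.le
    linarith
  have b1 : |(p 1 : ℝ)| ≤ A * Q := by
    have h1 : |(p 1 : ℝ)| ≤ |(q 1 : ℝ) * v - p 1| + |(q 1 : ℝ) * v| := by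
      have : (p 1 : ℝ) = (q 1 : ℝ) * v - ((q 1 : ℝ) * v - p 1) := by ring
      calc |(p 1 : ℝ)| = |(q 1 : ℝ) * v - ((q 1 : ℝ) * v - p 1)| := by rw [← this]
        _ ≤ |(q 1 : ℝ) * v| + |(q 1 : ℝ) * v - p 1| := abs_sub _ _
        _ = _ := add_comm _ _
    rw [e1, abs_mul, abs_of_pos (by linarith : (0 : ℝ) < q 1)] at h1
    have h2 : (q 1 : ℝ) * |v - (p 1 : ℝ) / q 1| ≤ q 1 * 1 := mul_le_mul_of_nonneg_left hv (by linarith)
    have h3 : (q 1 : ℝ) * |v| + q 1 ≤ q 1 * A := by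
      rw [hA]
      nlinarith
    have h4 : (q 1 : ℝ) * A ≤ Q * A := mul_le_mul_of_nonneg_right hQ1 hA0.le
    linarith
  have c0 : |((q 0 : ℤ) : ℝ)| ≤ A * Q := by
    rw [Int.cast_natCast, abs_of_pos (by linarith : (0 : ℝ) < q 0)]
    nlinarith
  have c1 : |((q 1 : ℤ) : ℝ)| ≤ A * Q := by
    rw [Int.cast_natCast, abs_of_pos (by linarith : (0 : ℝ) < q 1)]
    nlinarith
  have hne : ∀ m : ℕ, 1 ≤ m → ∀ n : ℤ, (C (m : ℤ) * X - C n : ℤ[X]) ≠ 0 := by
    intro m hm n h0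
    have h1 := congrArg (fun P : ℤ[X] => P.coeff 1) h0
    beta_reduce at h1
    rw [coeff_sub, coeff_C_mul_X, coeff_C, if_pos rfl, if_neg one_ne_zero, coeff_zero] at h1
    omega
  have hdeg : ∀ (m n : ℤ), (C m * X - C n : ℤ[X]).natDegree ≤ 1 := by
    intro m n
    refine (natDegree_sub_le _ _).trans (max_le ?_ ?_)
    · exact (natDegree_C_mul_le _ _).trans natDegree_X_le
    · simp
  have hmain := hj (C (q 0 : ℤ) * X - C (p 0)) (C (q 1 : ℤ) * X - C (p 1)) (hne _ hq0 _) (hne _ hq1 _)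
    (hdeg _ _) (hdeg _ _) (A * Q) (fun k => coeff_lin _ _ k _ c0 b0) (fun k => coeff_lin _ _ k _ c1 b1)
  have v0 : aeval u (C (q 0 : ℤ) * X - C (p 0) : ℤ[X]) = (q 0 : ℝ) * u - p 0 := by
    simp
  have v1 : aeval v (C (q 1 : ℤ) * X - C (p 1) : ℤ[X]) = (q 1 : ℝ) * v - p 1 := by
    simp
  rw [v0, v1, e0, e1] at hmain
  have hpow : (A * Q) ^ (-κ) = A ^ (-κ) * Q ^ (-κ) := Real.mul_rpow hA0.le hQp.le
  rw [hpow] at hmain
  have hfin : ∀ w : ℝ, C0 * (A ^ (-κ) * Q ^ (-κ)) ≤ Q * w → C0 * A ^ (-κ) ≤ Q ^ (κ + 1) * w := by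
    intro w hw
    have h1 : Q ^ κ * Q ^ (-κ) = 1 := by rw [← Real.rpow_add hQp]; simp
    have h2 : Q ^ (κ + 1) = Q ^ κ * Q := by rw [Real.rpow_add hQp, Real.rpow_one]
    rw [h2]
    calc C0 * A ^ (-κ) = Q ^ κ * (C0 * (A ^ (-κ) * Q ^ (-κ))) := by
          calc C0 * A ^ (-κ) = C0 * A ^ (-κ) * (Q ^ κ * Q ^ (-κ)) := by rw [h1, mul_one]
            _ = _ := by ring
      _ ≤ Q ^ κ * (Q * w) := mul_le_mul_of_nonneg_left hw (by positivity)
      _ = _ := by ring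
  rcases le_max_iff.1 hmain with h1 | h1
  · refine ⟨0, by simp, ?_⟩
    simp only [if_true]
    refine (min_le_right _ _).trans (hfin _ (h1.trans ?_))
    exact mul_le_mul_of_nonneg_right hQ0 (abs_nonneg _)
  · refine ⟨1, by simp, ?_⟩
    simp only [one_ne_zero, if_false]
    refine (min_le_right _ _).trans (hfin _ (h1.trans ?_))
    exact mul_le_mul_of_nonneg_right hQ1 (abs_nonneg _)

/-- **Lempel-Ziv complexity of the expansions of two numbers.** -/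
theorem lz_pair (u v : ℝ) (huv : JointR u v) (h : ℕ) : ∃ C : ℝ, 0 < C ∧ ∀ b b' : ℕ, 2 ≤ b → 2 ≤ b' →
    ∀ a a' : ℕ → ℤ, (∀ i, |a i| ≤ ((b ^ h : ℕ) : ℤ)) → (∀ i, |a' i| ≤ ((b' ^ h : ℕ) : ℤ)) →
      (∃ n : ℤ, Exp b a (u - n)) → (∃ n : ℤ, Exp b' a' (v - n)) →
      ∀ L L' z z' : ℕ, LZ a L z → LZ a' L' z' →
        min (L * Real.log b) (L' * Real.log b') ≤ (Real.log b + Real.log b') * C ^ (z + z' + 1) := by
  obtain ⟨μ, c, hμ, hc, hM⟩ := msP_of_joint u v huv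
  obtain ⟨C0, hC0, hmain⟩ := sepP {0, 1} _ μ c hμ hc hM h
  have hcard : ((({0, 1} : Finset ℕ).card : ℕ) : ℝ) = 2 := by
    rw [Finset.card_pair (by norm_num)]
    norm_num
  rw [hcard] at hmain
  obtain ⟨K, hK⟩ : ∃ K : ℝ, K = max C0 (2 * μ + 1) := ⟨_, rfl⟩
  have hK1 : 2 * μ + 1 ≤ K := by rw [hK]; exact le_max_right _ _
  have hK2 : C0 ≤ K := by rw [hK]; exact le_max_left _ _
  have hK0 : 0 < K := by linarith
  refine ⟨K, hK0, ?_⟩
  intro b b' hb hb' a a' ha ha' hex hex' L L' z z' hz hz'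
  have hl : 0 < Real.log b := Real.log_pos (by exact_mod_cast (by omega : 1 < b))
  have hl' : 0 < Real.log b' := Real.log_pos (by exact_mod_cast (by omega : 1 < b'))
  have h1 := hmain (fun j => if j = 0 then b else b') (by
    intro j hj
    by_cases h0 : j = 0
    · simp only [h0, if_true]; exact hb
    · simp only [h0, if_false]; exact hb') (fun j => if j = 0 then a else a') (by
    intro j hj i
    by_cases h0 : j = 0
    · simp only [h0, if_true]; exact ha i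
    · simp only [h0, if_false]; exact ha' i) (by
    intro j hj
    by_cases h0 : j = 0
    · simp only [h0, if_true]; exact hex
    · simp only [h0, if_false]; exact hex') (fun j => if j = 0 then L else L') (fun j => if j = 0 then z else z') (by
    intro j hj
    by_cases h0 : j = 0
    · simp only [h0, if_true]; exact hz
    · simp only [h0, if_false]; exact hz') (min (L * Real.log b) (L' * Real.log b')) (by
    intro j hj
    by_cases h0 : j = 0
    · simp only [h0, if_true]; exact min_le_left _ _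
    · simp only [h0, if_false]; exact min_le_right _ _)
  rw [Finset.sum_pair (by norm_num), Finset.sum_pair (by norm_num)] at h1
  simp only [if_true, one_ne_zero, if_false] at h1
  refine h1.trans ?_
  have h2 : (2 * μ + 1) ^ (z + z') ≤ K ^ (z + z') := pow_le_pow_left₀ (by linarith) hK1 _
  have hs : 0 ≤ Real.log b + Real.log b' := by linarith
  calc C0 * (Real.log b + Real.log b') * (2 * μ + 1) ^ (z + z')
      ≤ K * (Real.log b + Real.log b') * K ^ (z + z') := by gcongr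
    _ = (Real.log b + Real.log b') * K ^ (z + z' + 1) := by ring

end Pool.Agent.Zk17.TC
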