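import Pool.Agent.N743.Alg

/-!
# Numbers built from two numbers, one of which has a transcendence measure
-/

set_option autoImplicit false

namespace Pool.Agent.Zk17.TC

open Polynomial Pool.Agent.R356 Pool.Agent.TH456.TM

/-- the nonzero numbers `a t + b s` and `t ^ a s ^ b` with coprime integers `a`, `b` such that `a > 0`, or `a = 0` and
`b = 1` -/
def Fam (t s : ℝ) : Set ℝ :=
  {x | x ≠ 0 ∧ ∃ a b : ℤ, IsCoprime a b ∧ (0 < a ∨ (a = 0 ∧ b = 1)) ∧
    (x = a * t + b * s ∨ x = t ^ a * s ^ b)}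

lemma ev_u (u v x : ℂ) : ev3 u v x (C (C X)) = u := by simp [ev3, evR, σx]

lemma ev_v (u v x : ℂ) : ev3 u v x (C X) = v := by simp [ev3, evR]

lemma ev_x (u v x : ℂ) : ev3 u v x X = x := by simp [ev3]

lemma ev_sub (u v x : ℂ) (P Q : ℤ[X][X][X]) : ev3 u v x (P - Q) = ev3 u v x P - ev3 u v x Q :=
  RingHom.map_sub _ P Q

lemma ev_mul (u v x : ℂ) (P Q : ℤ[X][X][X]) : ev3 u v x (P * Q) = ev3 u v x P * ev3 u v x Q :=
  RingHom.map_mul _ P Q

lemma ev_pow (u v x : ℂ) (P : ℤ[X][X][X]) (n : ℕ) : ev3 u v x (P ^ n) = ev3 u v x P ^ n :=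
  RingHom.map_pow _ P n

lemma ev_int (u v x : ℂ) (n : ℤ) : ev3 u v x (n : ℤ[X][X][X]) = (n : ℂ) :=
  eq_intCast ((ev3 u v x).comp (Int.castRingHom (ℤ[X][X][X]))) n

lemma norm_eq {a b c d : ℤ} (h1 : IsCoprime a b) (h2 : IsCoprime c d) (ha : 0 < a ∨ (a = 0 ∧ b = 1))
    (hc : 0 < c ∨ (c = 0 ∧ d = 1)) (h : a * d - b * c = 0) : a = c ∧ b = d := by
  have h3 : a * d = b * c := by linarith
  have hac : a ∣ c := by
    have : a ∣ b * c := ⟨d, h3.symm⟩
    exact h1.dvd_of_dvd_mul_left this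
  have hca : c ∣ a := by
    have : c ∣ d * a := ⟨b, by linarith⟩
    exact h2.dvd_of_dvd_mul_left this
  rcases ha with ha | ⟨ha, hb⟩
  · rcases hc with hc | ⟨hc, hd⟩
    · have e : a = c := Int.dvd_antisymm ha.le hc.le hac hca
      refine ⟨e, ?_⟩
      subst e
      have : a * (d - b) = 0 := by linarith
      rcases mul_eq_zero.1 this with h | h
      · omega
      · omega
    · subst hc
      have := zero_dvd_iff.1 hca
      omega
  · subst ha
    have hc0 := zero_dvd_iff.1 hac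
    rcases hc with hc | ⟨hc, hd⟩
    · omega
    · exact ⟨hc.symm, by omega⟩

/-- two linear forms -/
theorem joint_LL (t s : ℝ) (hs : MeasT (s : ℂ)) (a b c d : ℤ) (h : a * d - b * c ≠ 0) :
    JointR (a * t + b * s) (c * t + d * s) := by
  refine jointR_of_rel (s : ℂ) hs _ _
    ⟨((a * d - b * c : ℤ) : ℤ[X][X][X]) * X - ((a : ℤ[X][X][X]) * C X - (c : ℤ[X][X][X]) * C (C X)),
      ?_, (s : ℂ) + 1, ?_⟩
  · simp only [ev_sub, ev_mul, ev_int, ev_u, ev_v, ev_x]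
    push_cast
    ring
  · simp only [ev_sub, ev_mul, ev_int, ev_u, ev_v, ev_x]
    have e : (((a * d - b * c : ℤ) : ℂ)) * ((s : ℂ) + 1) - ((a : ℂ) * ((c * t + d * s : ℝ) : ℂ) -
        (c : ℂ) * ((a * t + b * s : ℝ) : ℂ)) = ((a * d - b * c : ℤ) : ℂ) := by
      push_cast
      ring
    rw [e]
    exact_mod_cast h

/-- two monomials -/
theorem joint_MM (t s : ℝ) (ht : t ≠ 0) (hs0 : s ≠ 0) (hs : MeasT (s : ℂ)) (a b c d : ℤ) (ha : 0 ≤ a)
    (hc : 0 ≤ c) (h : a * d - b * c ≠ 0) : JointR (t ^ a * s ^ b) (t ^ c * s ^ d) := by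
  obtain ⟨x, hx⟩ : ∃ x : ℝ, x = t ^ a * s ^ b := ⟨_, rfl⟩
  obtain ⟨y, hy⟩ : ∃ y : ℝ, y = t ^ c * s ^ d := ⟨_, rfl⟩
  have hx0 : x ≠ 0 := by rw [hx]; exact mul_ne_zero (zpow_ne_zero _ ht) (zpow_ne_zero _ hs0)
  have hy0 : y ≠ 0 := by rw [hy]; exact mul_ne_zero (zpow_ne_zero _ ht) (zpow_ne_zero _ hs0)
  rw [← hx, ← hy]
  obtain ⟨a', rfl⟩ := Int.eq_ofNat_of_zero_le ha
  obtain ⟨c', rfl⟩ := Int.eq_ofNat_of_zero_le hc
  have key : y ^ a' = x ^ c' * s ^ ((a' : ℤ) * d - b * c') := by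
    have e1 : y ^ a' = t ^ ((c' : ℤ) * a') * s ^ (d * (a' : ℤ)) := by
      rw [hy, mul_pow, ← zpow_natCast (t ^ (c' : ℤ)), ← zpow_mul, ← zpow_natCast (s ^ d), ← zpow_mul]
    have e2 : x ^ c' = t ^ ((a' : ℤ) * c') * s ^ (b * (c' : ℤ)) := by
      rw [hx, mul_pow, ← zpow_natCast (t ^ (a' : ℤ)), ← zpow_mul, ← zpow_natCast (s ^ b), ← zpow_mul]
    rw [e1, e2, mul_assoc, ← zpow_add₀ hs0]
    congr 2
    · ring
    · ring
  rcases lt_or_gt_of_ne h with h1 | h1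
  · -- negative exponent
    obtain ⟨k, hk⟩ := Int.eq_ofNat_of_zero_le (show 0 ≤ -((a' : ℤ) * d - b * c') by omega)
    have hk0 : k ≠ 0 := by omega
    have key2 : y ^ a' * s ^ k = x ^ c' := by
      rw [key, mul_assoc, ← zpow_natCast s k, ← zpow_add₀ hs0]
      have : (a' : ℤ) * d - b * c' + (k : ℤ) = 0 := by omega
      rw [this, zpow_zero, mul_one]
    refine jointR_of_rel (s : ℂ) hs _ _ ⟨(C X) ^ a' * X ^ k - (C (C X)) ^ c', ?_, 0, ?_⟩
    · simp only [ev_sub, ev_mul, ev_pow, ev_u, ev_v, ev_x]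
      exact_mod_cast sub_eq_zero.2 key2
    · simp only [ev_sub, ev_mul, ev_pow, ev_u, ev_v, ev_x]
      rw [zero_pow hk0, mul_zero, zero_sub]
      exact neg_ne_zero.2 (pow_ne_zero _ (by exact_mod_cast hx0))
  · obtain ⟨k, hk⟩ := Int.eq_ofNat_of_zero_le (show 0 ≤ ((a' : ℤ) * d - b * c') by omega)
    have hk0 : k ≠ 0 := by omega
    have key2 : x ^ c' * s ^ k = y ^ a' := by
      rw [key, hk]
      simp
    refine jointR_of_rel (s : ℂ) hs _ _ ⟨(C (C X)) ^ c' * X ^ k - (C X) ^ a', ?_, 0, ?_⟩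
    · simp only [ev_sub, ev_mul, ev_pow, ev_u, ev_v, ev_x]
      exact_mod_cast sub_eq_zero.2 key2
    · simp only [ev_sub, ev_mul, ev_pow, ev_u, ev_v, ev_x]
      rw [zero_pow hk0, mul_zero, zero_sub]
      exact neg_ne_zero.2 (pow_ne_zero _ (by exact_mod_cast hy0))

/-- a linear form and a monomial -/
theorem joint_LM (t s : ℝ) (ht : t ≠ 0) (hs0 : s ≠ 0) (hs : MeasT (s : ℂ)) (a b c d : ℤ)
    (h1 : IsCoprime a b) (h2 : IsCoprime c d) (ha : 0 < a ∨ (a = 0 ∧ b = 1))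
    (hc : 0 < c ∨ (c = 0 ∧ d = 1)) (x y : ℝ) (hx : x = a * t + b * s) (hy : y = t ^ c * s ^ d)
    (hx0 : x ≠ 0) (hne : x ≠ y) : JointR x y := by
  have hy0 : y ≠ 0 := by rw [hy]; exact mul_ne_zero (zpow_ne_zero _ ht) (zpow_ne_zero _ hs0)
  have hxC : (x : ℂ) ≠ 0 := by exact_mod_cast hx0
  have hyC : (y : ℂ) ≠ 0 := by exact_mod_cast hy0
  rcases ha with ha | ⟨ha, hb⟩
  swap
  · have e : x = s := by rw [hx, ha, hb]; simp
    refine jointR_of_rel (s : ℂ) hs _ _ ⟨X - C (C X), ?_, (s : ℂ) + 1, ?_⟩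
    · simp only [ev_sub, ev_u, ev_x]
      rw [e, sub_self]
    · simp only [ev_sub, ev_u, ev_x]
      rw [e]
      simp
  rcases hc with hc | ⟨hc, hd⟩
  swap
  · have e : y = s := by rw [hy, hc, hd]; simp
    refine jointR_of_rel (s : ℂ) hs _ _ ⟨X - C X, ?_, (s : ℂ) + 1, ?_⟩
    · simp only [ev_sub, ev_v, ev_x]
      rw [e, sub_self]
    · simp only [ev_sub, ev_v, ev_x]
      rw [e]
      simp
  have haC : (a : ℂ) ≠ 0 := by exact_mod_cast ha.ne'
  have hlin : x - b * s = a * t := by rw [hx]; ring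
  obtain ⟨c', hc'⟩ := Int.eq_ofNat_of_zero_le hc.le
  have hc0 : c' ≠ 0 := by omega
  have hpow : (x - b * s) ^ c' = (a : ℝ) ^ c' * t ^ c' := by rw [hlin, mul_pow]
  have hy' : y = t ^ c' * s ^ d := by rw [hy, hc']; simp
  rcases lt_trichotomy d 0 with hd | hd | hd
  · obtain ⟨k, hk⟩ := Int.eq_ofNat_of_zero_le (show 0 ≤ -d by omega)
    have hk0 : k ≠ 0 := by omega
    have e1 : y * s ^ k = t ^ c' := by
      rw [hy', mul_assoc, ← zpow_natCast s k, ← zpow_add₀ hs0]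
      have : d + (k : ℤ) = 0 := by omega
      rw [this, zpow_zero, mul_one]
    have key : (x - b * s) ^ c' - (a : ℝ) ^ c' * y * s ^ k = 0 := by
      rw [hpow, mul_assoc, e1, sub_self]
    refine jointR_of_rel (s : ℂ) hs _ _
      ⟨(C (C X) - (b : ℤ[X][X][X]) * X) ^ c' - (a : ℤ[X][X][X]) ^ c' * C X * X ^ k, ?_, 0, ?_⟩
    · simp only [ev_sub, ev_mul, ev_pow, ev_int, ev_u, ev_v, ev_x]
      exact_mod_cast key
    · simp only [ev_sub, ev_mul, ev_pow, ev_int, ev_u, ev_v, ev_x]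
      rw [zero_pow hk0, mul_zero, mul_zero, sub_zero, sub_zero]
      exact pow_ne_zero _ hxC
  · have hc1 : c' = 1 := by
      rw [hd] at h2
      have h3 := Int.isUnit_iff.1 (isCoprime_zero_right.1 h2)
      omega
    have e1 : y = t := by rw [hy', hd, hc1]; simp
    have hb : b ≠ 0 := by
      rintro rfl
      have h3 := Int.isUnit_iff.1 (isCoprime_zero_right.1 h1)
      have ha1 : a = 1 := by omega
      apply hne
      rw [hx, e1, ha1]
      simp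
    refine jointR_of_rel (s : ℂ) hs _ _
      ⟨C (C X) - (b : ℤ[X][X][X]) * X - (a : ℤ[X][X][X]) * C X, ?_, (s : ℂ) + 1, ?_⟩
    · simp only [ev_sub, ev_mul, ev_int, ev_u, ev_v, ev_x]
      rw [e1, hx]
      push_cast
      ring
    · simp only [ev_sub, ev_mul, ev_int, ev_u, ev_v, ev_x]
      rw [e1, hx]
      have : (((a : ℝ) * t + (b : ℝ) * s : ℝ) : ℂ) - (b : ℂ) * ((s : ℂ) + 1) - (a : ℂ) * (t : ℂ) = -(b : ℂ) := by
        push_cast
        ring
      rw [this]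
      exact neg_ne_zero.2 (by exact_mod_cast hb)
  · obtain ⟨k, hk⟩ := Int.eq_ofNat_of_zero_le hd.le
    have hk0 : k ≠ 0 := by omega
    have key : (x - b * s) ^ c' * s ^ k - (a : ℝ) ^ c' * y = 0 := by
      rw [hpow, hy', hk]
      simp
      ring
    refine jointR_of_rel (s : ℂ) hs _ _
      ⟨(C (C X) - (b : ℤ[X][X][X]) * X) ^ c' * X ^ k - (a : ℤ[X][X][X]) ^ c' * C X, ?_, 0, ?_⟩
    · simp only [ev_sub, ev_mul, ev_pow, ev_int, ev_u, ev_v, ev_x]
      exact_mod_cast key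
    · simp only [ev_sub, ev_mul, ev_pow, ev_int, ev_u, ev_v, ev_x]
      rw [zero_pow hk0, mul_zero, zero_sub]
      exact neg_ne_zero.2 (mul_ne_zero (pow_ne_zero _ haC) hyC)

theorem joint_fam (t s : ℝ) (ht : t ≠ 0) (hs0 : s ≠ 0) (hs : MeasT (s : ℂ)) (x y : ℝ) (hx : x ∈ Fam t s)
    (hy : y ∈ Fam t s) (hne : x ≠ y) : JointR x y := by
  obtain ⟨hx0, a, b, h1, ha, hx⟩ := hx
  obtain ⟨hy0, c, d, h2, hc, hy⟩ := hy
  have ha' : 0 ≤ a := by omega
  have hc' : 0 ≤ c := by omega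
  rcases hx with hx | hx <;> rcases hy with hy | hy
  · have h : a * d - b * c ≠ 0 := by
      intro h
      obtain ⟨rfl, rfl⟩ := norm_eq h1 h2 ha hc h
      exact hne (hx.trans hy.symm)
    rw [hx, hy]
    exact joint_LL t s hs a b c d h
  · exact joint_LM t s ht hs0 hs a b c d h1 h2 ha hc x y hx hy hx0 hne
  · exact (joint_LM t s ht hs0 hs c d a b h2 h1 hc ha y x hy hx hy0 hne.symm).symm
  · have h : a * d - b * c ≠ 0 := by
      intro h
      obtain ⟨rfl, rfl⟩ := norm_eq h1 h2 ha hc h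
      exact hne (hx.trans hy.symm)
    rw [hx, hy]
    exact joint_MM t s ht hs0 hs a b c d ha' hc' h

end Pool.Agent.Zk17.TC
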