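import Pool.Agent.N743.Alg

/-!
# Statements: uniform elimination for linear forms
-/

set_option autoImplicit false

namespace Pool.Agent.Zk17.TC

open Polynomial Pool.Agent.TH456.TM Pool.Agent.N743

/-- uniform elimination for a linear relation `k x = m u + n v` -/
def S_U1 : Prop := ∀ (x : ℂ), MeasT x → ∀ (D : ℕ) (T : ℝ), ∃ κ C : ℝ, 0 < κ ∧ 0 < C ∧
  ∀ u v : ℂ, ‖u‖ ≤ T → ‖v‖ ≤ T → ∀ k m n : ℤ, k ≠ 0 → (k : ℂ) * x = m * u + n * v →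
    ∀ P Q : ℤ[X], P ≠ 0 → Q ≠ 0 → P.natDegree ≤ D → Q.natDegree ≤ D →
      ∀ H : ℝ, 1 ≤ H → |(k : ℝ)| ≤ H → |(m : ℝ)| ≤ H → |(n : ℝ)| ≤ H →
        (∀ j, |((P.coeff j : ℤ) : ℝ)| ≤ H) → (∀ j, |((Q.coeff j : ℤ) : ℝ)| ≤ H) →
          C * H ^ (-κ) ≤ max ‖aeval u P‖ ‖aeval v Q‖

/-- two independent linear forms with small coefficients are not near at the same large scale -/
def S_U2 : Prop := ∀ (s t : ℝ), MeasT (s : ℂ) → ∀ d : ℕ, ∃ η K : ℝ, 0 < η ∧ ∀ X : ℝ, K ≤ X →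
  ∀ a b c e : ℤ, a * e - b * c ≠ 0 → |(a : ℝ)| ≤ X ^ η → |(b : ℝ)| ≤ X ^ η → |(c : ℝ)| ≤ X ^ η →
    |(e : ℝ)| ≤ X ^ η → AlgNear d η X (a * t + b * s) → AlgNear d η X (c * t + e * s) → False

end Pool.Agent.Zk17.TC
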